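import Pool.Agent.H90.STE.Stmts
import Pool.Agent.H72.STK.CN3

/-!
# Module CC: the difference given the coarse line and given the coarse position (random time)
-/

set_option autoImplicit false

namespace Pool.STE

open Finset Real
open Pool.Agent.H49.Ent Pool.Agent.H32.Dense Pool.STK Pool.KA

namespace CCr

lemma t_nonneg {m J : ℕ} (F : Fam m J) (ω : F.Ω) : 0 ≤ F.t ω := by
  unfold Fam.t
  positivity

lemma t_le_one {m J : ℕ} (F : Fam m J) (ω : F.Ω) : F.t ω ≤ 1 := by
  unfold Fam.t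
  rw [div_le_one (by positivity)]
  have h : ((F.T ω : ℕ) : ℝ) < ((2 ^ J : ℕ) : ℝ) := by exact_mod_cast F.tim ω
  push_cast at h
  exact h.le

/-- The coarse line and the time nearly determine the coarse position. -/
lemma X_near {m J : ℕ} (F : Fam m J) (j : ℕ) {ω ω' : F.Ω} (h : F.L j ω = F.L j ω')
    (hT : F.T ω = F.T ω') (i : Fin m) : |((F.X j ω i - F.X j ω' i : ℤ) : ℝ)| ≤ 3 := by
  have ht : F.t ω = F.t ω' := by
    unfold Fam.t
    rw [hT]
  have h1 : F.X j ω = Xp F.u F.d (F.t ω) j ω := rfl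
  have h2 : F.X j ω' = Xp F.u F.d (F.t ω) j ω' := by
    rw [ht]
    rfl
  rw [h1, h2]
  exact CN3.xp_near F.u F.d (F.t ω) (t_nonneg F ω) (t_le_one F ω) j h i

end CCr

theorem cc_thm : CCStmt := by
  intro m J F k r _
  have hp0 := F.isLaw.nonneg
  have hq : ∀ w, 0 ≤ dbl F.p (bT F k r) w := dbl_nonneg hp0
  have hq1 : ∑ w, dbl F.p (bT F k r) w = 1 := by rw [(dbl_fst hp0).sum, F.isLaw.sum_one]
  have h1 := CH_le_add hq (zT F k ((r + 1) * k)) (fun w => F.X (r * k) w.1)
    (fun w => bT F k r w.1)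
  have h2 : CH (dbl F.p (bT F k r)) (zT F k ((r + 1) * k))
      (fun w => (F.X (r * k) w.1, bT F k r w.1)) ≤
      CH (dbl F.p (bT F k r)) (zT F k ((r + 1) * k))
      (fun w => (F.X (r * k) w.1, F.W w.1)) := by
    refine CH_mono_cond hq ?_
    intro w w' _ _ h
    simp only [Prod.mk.injEq, bT] at h ⊢
    exact ⟨h.1, h.2.2⟩
  have h3 : CH (dbl F.p (bT F k r)) (fun w => F.X (r * k) w.1)
      (fun w => bT F k r w.1) ≤ Pool.STK.cc m := by
    have h4 := CH_le_vec hq hq1 (fun w => F.X (r * k) w.1)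
      (fun w => bT F k r w.1) (fun _ => 3) (by
        intro w w' _ _ h i
        have h' : F.L (r * k) w.1 = F.L (r * k) w'.1 := (Prod.ext_iff.mp h).1
        have h'' : F.T w.1 = F.T w'.1 := (Prod.ext_iff.mp (Prod.ext_iff.mp h).2).1
        exact CCr.X_near F (r * k) h' h'' i)
    rw [Ex_const hq1] at h4
    refine h4.trans ?_
    unfold Pool.STK.cc
    refine mul_le_mul_of_nonneg_left ?_ (Nat.cast_nonneg m)
    exact Real.log_le_log (by norm_num) (by norm_num)
  linarith

end Pool.STE
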