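import Pool.Agent.H90.STE.Stmts
import Pool.Agent.H41.STK.Q22

/-!
# Module QT: the differences carry little more information on the line than on the position
# (random time)
-/

set_option autoImplicit false

namespace Pool.STE

open Finset Real
open Pool.Agent.H49.Ent Pool.Agent.H32.Dense Pool.STK Pool.KA

theorem qt (hCA : CAStmt) (hCB : CBStmt) (hMUL : MULStmt) (hMUI : MUIStmt) : QTStmt := by
  intro m J F k N hk
  obtain ⟨hq, -, hm2⟩ := hMUL F.Ω (((Fin m → ℤ) × (Fin m → ℤ)) × (ℕ × F.ζ)) N F.p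
    (fun r : Fin N => bT F k r) F.isLaw
  have h1 := Q22.CH_pi (p := pT F k N) hq.nonneg
    (fun w => (F.X (N * k) w.1, F.W w.1)) N (yT F k N)
  have h2 : ∀ r : Fin N, CH (pT F k N) (fun w => yT F k N w r)
      (fun w => (F.X (N * k) w.1, F.W w.1)) ≤
      CH F.p (F.X (((r : ℕ) + 1) * k)) (fun ω => (F.X ((r : ℕ) * k) ω, F.W ω)) +
        2 * cc m := by
    intro r
    have e1 : CH (pT F k N) (fun w => yT F k N w r)
        (fun w => (F.X (N * k) w.1, F.W w.1)) ≤
        CH (pT F k N) (fun w => yT F k N w r)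
        (fun w => (F.X (((r : ℕ) + 1) * k) w.1, F.W w.1)) := by
      refine CH_mono_cond hq.nonneg ?_
      intro w w' _ _ h
      have h' := Prod.ext_iff.mp h
      refine Prod.ext ?_ h'.2
      exact Q22.fl_nest (Nat.mul_le_mul_right k r.isLt) h'.1
    have e2 := (hm2 r).CH (zT F k (((r : ℕ) + 1) * k))
      (fun w => (F.X (((r : ℕ) + 1) * k) w.1, F.W w.1))
    have e3 := hCA m J F k r hk
    exact e1.trans (e2.le.trans e3)
  have h3 := hMUI F.Ω (((Fin m → ℤ) × (Fin m → ℤ)) × (ℕ × F.ζ)) (Fin m → ℤ) N F.p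
    (fun r : Fin N => bT F k r) F.isLaw (fun r => zT F k (((r : ℕ) + 1) * k))
  have h3' : ∑ r : Fin N, CH (dbl F.p (bT F k r)) (zT F k (((r : ℕ) + 1) * k))
      (fun w => w.1) ≤ CH (pT F k N) (yT F k N) (fun w => w.1) := h3
  have h4 : ∀ r : Fin N, CH F.p (F.X (((r : ℕ) + 1) * k)) (bT F k r) ≤
      CH (dbl F.p (bT F k r)) (zT F k (((r : ℕ) + 1) * k)) (fun w => w.1) + cc m :=
    fun r => hCB m J F k r hk
  have h5 : qT F k N = ∑ r : Fin N, (iT F k r + 3 * cc m) := by
    unfold qT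
    exact Finset.sum_range (fun r => iT F k r + 3 * cc m)
  rw [h5]
  have h6 : ∑ r : Fin N, (CH (pT F k N) (fun w => yT F k N w r)
      (fun w => (F.X (N * k) w.1, F.W w.1)) -
      CH (dbl F.p (bT F k r)) (zT F k (((r : ℕ) + 1) * k)) (fun w => w.1)) ≤
      ∑ r : Fin N, (iT F k r + 3 * cc m) := by
    refine Finset.sum_le_sum fun r _ => ?_
    have a1 := h2 r
    have a2 := h4 r
    unfold iT
    linarith
  rw [Finset.sum_sub_distrib] at h6
  linarith

end Pool.STE
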