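import Pool.Agent.H90.STE.Stmts2

/-!
# Stickiness at all scales from coverings at a few scales
-/

set_option autoImplicit false

namespace Pool.STE

open Finset Real MeasureTheory
open scoped RealInnerProductSpace ENNReal
open Pool.Agent.H49.Ent Pool.Agent.H32.Dense Pool.STK Pool.KA
open Pool.Agent.H53.Kak (E tube)

namespace CS

/-- The entropy of a constant. -/
lemma ch_const {Ω S T : Type} [Fintype Ω] {p : Ω → ℝ} (hp : IsLaw p) (X : Ω → S) (Z : Ω → T)
    (s : S) (hX : ∀ ω, X ω = s) : CH p X Z = 0 := by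
  obtain rfl : X = fun _ => s := funext hX
  unfold CH
  have h : H p (fun ω => (s, Z ω)) = H p Z :=
    H_comp_injective hp.nonneg Z (f := fun t => (s, t)) (fun a b h => (Prod.ext_iff.mp h).2)
  rw [h, sub_self]

/-- Fewer digits. -/
lemma fl_coarse {m j k : ℕ} {x y : Fin m → ℝ} (h : fl (j + k) x = fl (j + k) y) :
    fl j x = fl j y := by
  have key : ∀ a : ℝ, ⌊(2 : ℝ) ^ j * a⌋ = ⌊(2 : ℝ) ^ (j + k) * a⌋ / (2 ^ k : ℕ) := by
    intro a
    have e : (2 : ℝ) ^ j * a = 2 ^ (j + k) * a / ((2 ^ k : ℕ) : ℝ) := by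
      push_cast
      rw [eq_div_iff (by positivity), pow_add]
      ring
    rw [e, Int.floor_div_natCast]
  funext i
  have h1 : ⌊(2 : ℝ) ^ (j + k) * x i⌋ = ⌊(2 : ℝ) ^ (j + k) * y i⌋ := congrFun h i
  change ⌊(2 : ℝ) ^ j * x i⌋ = ⌊(2 : ℝ) ^ j * y i⌋
  rw [key, key, h1]

/-- Comparison of the scales. -/
lemma scales {M J r : ℕ} {δ b B : ℝ} (hM : 1 ≤ M) (hr : r ≤ M) (hδ : 0 < δ) (hb : 0 < b)
    (hb1 : b ≤ 1) (hB : 1 ≤ B) (h1 : b * δ ≤ ((2 : ℝ) ^ J)⁻¹) (h2 : ((2 : ℝ) ^ J)⁻¹ ≤ B * δ) :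
    b * δ ^ ((r : ℝ) / M) ≤ ((2 : ℝ) ^ (r * J / M))⁻¹ ∧
      ((2 : ℝ) ^ (r * J / M))⁻¹ ≤ 2 * B * δ ^ ((r : ℝ) / M) := by
  have hM0 : (0 : ℝ) < M := by exact_mod_cast hM
  have hs0 : (0 : ℝ) ≤ (r : ℝ) / M := by positivity
  have hs1 : (r : ℝ) / M ≤ 1 := by
    rw [div_le_one hM0]
    exact_mod_cast hr
  obtain ⟨s, hs⟩ : ∃ s : ℝ, s = (r : ℝ) / M := ⟨_, rfl⟩
  obtain ⟨n, hn⟩ : ∃ n : ℕ, n = r * J / M := ⟨_, rfl⟩
  rw [← hs] at hs0 hs1 ⊢
  rw [← hn]
  have hx : (((2 : ℝ) ^ J)⁻¹) ^ s = (2 : ℝ) ^ (-(s * J)) := by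
    rw [Real.inv_rpow (by positivity), ← Real.rpow_natCast 2 J, ← Real.rpow_mul (by norm_num),
      ← Real.rpow_neg (by norm_num)]
    congr 1
    ring
  have hsJ : s * J * M = r * J := by
    rw [hs]
    field_simp
  have hn1 : (n : ℝ) ≤ s * J := by
    have h3 : n * M ≤ r * J := by rw [hn]; exact Nat.div_mul_le_self _ _
    have h4 : (n : ℝ) * M ≤ r * J := by exact_mod_cast h3
    rw [← hsJ] at h4
    exact le_of_mul_le_mul_right h4 hM0
  have hn2 : s * J ≤ n + 1 := by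
    have h3 : r * J ≤ (n + 1) * M := by
      rw [hn]
      have := Nat.lt_div_mul_add (a := r * J) (b := M) (by omega)
      rw [add_mul, one_mul]
      omega
    have h4 : (r : ℝ) * J ≤ (n + 1) * M := by exact_mod_cast h3
    rw [← hsJ] at h4
    exact le_of_mul_le_mul_right h4 hM0
  have hpn : ((2 : ℝ) ^ n)⁻¹ = (2 : ℝ) ^ (-(n : ℝ)) := by
    rw [Real.rpow_neg (by norm_num), Real.rpow_natCast]
  constructor
  · calc b * δ ^ s ≤ b ^ s * δ ^ s := by
          refine mul_le_mul_of_nonneg_right ?_ (by positivity)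
          calc b = b ^ (1 : ℝ) := (Real.rpow_one b).symm
            _ ≤ b ^ s := Real.rpow_le_rpow_of_exponent_ge hb hb1 hs1
      _ = (b * δ) ^ s := (Real.mul_rpow hb.le hδ.le).symm
      _ ≤ (((2 : ℝ) ^ J)⁻¹) ^ s := Real.rpow_le_rpow (by positivity) h1 hs0
      _ = (2 : ℝ) ^ (-(s * J)) := hx
      _ ≤ (2 : ℝ) ^ (-(n : ℝ)) := Real.rpow_le_rpow_of_exponent_le (by norm_num) (by linarith)
      _ = _ := hpn.symm
  · calc ((2 : ℝ) ^ n)⁻¹ = 2 * (2 : ℝ) ^ (-((n : ℝ) + 1)) := by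
          rw [hpn, neg_add, Real.rpow_add (by norm_num), Real.rpow_neg_one]
          ring
      _ ≤ 2 * (2 : ℝ) ^ (-(s * J)) := by
          refine mul_le_mul_of_nonneg_left ?_ (by norm_num)
          exact Real.rpow_le_rpow_of_exponent_le (by norm_num) (by linarith)
      _ = 2 * (((2 : ℝ) ^ J)⁻¹) ^ s := by rw [hx]
      _ ≤ 2 * (B * δ) ^ s := by
          refine mul_le_mul_of_nonneg_left ?_ (by norm_num)
          exact Real.rpow_le_rpow (by positivity) h2 hs0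
      _ = 2 * (B ^ s * δ ^ s) := by rw [Real.mul_rpow (by positivity) hδ.le]
      _ ≤ 2 * (B * δ ^ s) := by
          refine mul_le_mul_of_nonneg_left ?_ (by norm_num)
          refine mul_le_mul_of_nonneg_right ?_ (by positivity)
          calc B ^ s ≤ B ^ (1 : ℝ) := Real.rpow_le_rpow_of_exponent_le hB hs1
            _ = B := Real.rpow_one B
      _ = _ := by ring

/-- Choice of the scale. -/
lemma exists_r {M J j : ℕ} (hM : 1 ≤ M) (hJ : 1 ≤ J) (hj : j ≤ J) :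
    ∃ r : ℕ, r < M ∧ r * J / M ≤ j ∧ j * M ≤ (r * J / M + 1) * M + J := by
  obtain ⟨r, hr⟩ : ∃ r, r = min (j * M / J) (M - 1) := ⟨_, rfl⟩
  have h1 : r * J ≤ j * M := by
    calc r * J ≤ j * M / J * J := Nat.mul_le_mul_right J (by rw [hr]; exact min_le_left _ _)
      _ ≤ j * M := Nat.div_mul_le_self _ _
  have h2 : j * M ≤ r * J + J := by
    rcases le_total (j * M / J) (M - 1) with h | h
    · rw [min_eq_left h] at hr
      rw [hr]
      have := Nat.lt_div_mul_add (a := j * M) (b := J) (by omega)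
      omega
    · rw [min_eq_right h] at hr
      rw [hr]
      calc j * M ≤ J * M := Nat.mul_le_mul_right M hj
        _ = (M - 1) * J + J := by
          obtain ⟨M', rfl⟩ : ∃ M', M = M' + 1 := ⟨M - 1, by omega⟩
          simp only [Nat.add_sub_cancel]
          ring
  refine ⟨r, ?_, ?_, ?_⟩
  · have : r ≤ M - 1 := by rw [hr]; exact min_le_right _ _
    omega
  · calc r * J / M ≤ j * M / M := Nat.div_le_div_right h1
      _ = j := Nat.mul_div_cancel j (by omega)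
  · have := Nat.lt_div_mul_add (a := r * J) (b := M) (by omega)
    rw [add_mul, one_mul]
    omega

end CS

open CS in
/-- **CS**. -/
theorem cs (h : TS2Stmt) (h' : RFNStmt) : CSStmt := by
  intro d hd ε₁ L c₁ c₂ hε hL hc₁ hc₂
  have hd0 : (0 : ℝ) < d := by exact_mod_cast hd
  have hlog2 : 0 < Real.log 2 := Real.log_pos (by norm_num)
  have hlog2' : Real.log 2 ≤ 1 := by
    have := Real.log_two_lt_d9
    linarith
  obtain ⟨b, hb⟩ : ∃ b, b = min c₁ 1 := ⟨_, rfl⟩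
  obtain ⟨B, hB⟩ : ∃ B, B = max c₂ 1 := ⟨_, rfl⟩
  have hb0 : 0 < b := by rw [hb]; exact lt_min hc₁ one_pos
  have hb1 : b ≤ 1 := by rw [hb]; exact min_le_right _ _
  have hbc : b ≤ c₁ := by rw [hb]; exact min_le_left _ _
  have hB1 : 1 ≤ B := by rw [hB]; exact le_max_right _ _
  have hBc : c₂ ≤ B := by rw [hB]; exact le_max_left _ _
  obtain ⟨c₄, hc₄⟩ : ∃ c₄ : ℝ, c₄ = 2 * B + b⁻¹ := ⟨_, rfl⟩
  have hbi : 0 < b⁻¹ := by positivity
  obtain ⟨C₅, hC₅, h5⟩ := h d L c₄ hL (by rw [hc₄]; linarith)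
  have hC50 : 0 < C₅ := by linarith
  obtain ⟨M, hM⟩ : ∃ M : ℕ, M = ⌈4 * d / ε₁⌉₊ + 1 := ⟨_, rfl⟩
  have hM1 : 1 ≤ M := by omega
  have hM0 : (0 : ℝ) < M := by exact_mod_cast hM1
  have hMd : (d : ℝ) / M ≤ ε₁ / 4 := by
    have h1 : 4 * (d : ℝ) / ε₁ ≤ M := by
      refine (Nat.le_ceil _).trans ?_
      rw [hM]
      push_cast
      linarith
    rw [div_le_iff₀ hε] at h1
    rw [div_le_iff₀ hM0]
    linarith
  obtain ⟨G, hG⟩ : ∃ G : ℝ, G = Real.log C₅ + ε₁ / 4 * Real.log B + d + cc d := ⟨_, rfl⟩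
  refine ⟨M, hM1, ε₁ / 4, by positivity, ⌈4 * G / ε₁⌉₊ + 1, ?_⟩
  intro δ J hJ hδ hδ1 hJ1 hJ2 ι _ c e k g q hcell A hcov hA p hp j hj
  have hJ0 : 1 ≤ J := by omega
  have hJr : (0 : ℝ) < J := by exact_mod_cast hJ0
  have hGJ : G ≤ ε₁ / 4 * J := by
    have h1 : 4 * G / ε₁ ≤ J := by
      refine (Nat.le_ceil _).trans ?_
      have : ⌈4 * G / ε₁⌉₊ ≤ J := by omega
      exact_mod_cast this
    rw [div_le_iff₀ hε] at h1
    linarith
  have hJ1' : b * δ ≤ ((2 : ℝ) ^ J)⁻¹ :=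
    (mul_le_mul_of_nonneg_right hbc hδ.le).trans hJ1
  have hJ2' : ((2 : ℝ) ^ J)⁻¹ ≤ B * δ := hJ2.trans (mul_le_mul_of_nonneg_right hBc hδ.le)
  obtain ⟨r, hrM, hrj, hjr⟩ := exists_r hM1 hJ0 hj
  obtain ⟨n, hn⟩ : ∃ n, n = r * J / M := ⟨_, rfl⟩
  rw [← hn] at hrj hjr
  obtain ⟨l, rfl⟩ := Nat.exists_eq_add_of_le hrj
  -- the number of the missing digits
  have hl : (l : ℝ) ≤ 1 + J / M := by
    have h1 : l * M ≤ M + J := by
      have : (n + l) * M = n * M + l * M := by ring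
      have h2 : (n + 1) * M = n * M + M := by ring
      omega
    have h2 : (l : ℝ) * M ≤ M + J := by exact_mod_cast h1
    have h3 : (1 : ℝ) + J / M = (M + J) / M := by field_simp
    rw [h3, le_div_iff₀ hM0]
    exact h2
  have hlogC : 0 ≤ Real.log C₅ := Real.log_nonneg hC₅
  have hlogB : 0 ≤ Real.log B := Real.log_nonneg hB1
  -- stickiness at the scale `n`
  have hst : CH p (Fl (uT k g c e) n) (Fl (dT k e) n) ≤
      Real.log C₅ + ε₁ / 4 * Real.log B + ε₁ / 4 * J := by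
    rcases Nat.eq_zero_or_pos r with hr | hr
    · have hn0 : n = 0 := by rw [hn, hr, zero_mul, Nat.zero_div]
      rw [hn0, ch_const hp (Fl (uT k g c e) 0) _ q (fun i => hcell.ps i)]
      positivity
    · obtain ⟨hA1, hcv⟩ := hcov r hr hrM
      have hs0 : (0 : ℝ) ≤ (r : ℝ) / M := by positivity
      have hs1 : (r : ℝ) / M ≤ 1 := by
        rw [div_le_one hM0]
        exact_mod_cast hrM.le
      obtain ⟨g1, g2⟩ := scales (r := r) hM1 hrM.le hδ hb0 hb1 hB1 hJ1' hJ2'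
      rw [← hn] at g1 g2
      have hρ0 : 0 < δ ^ ((r : ℝ) / M) := by positivity
      have hn0 : 0 < ((2 : ℝ) ^ n)⁻¹ := by positivity
      have h8 : δ ≤ δ ^ ((r : ℝ) / M) := by
        calc δ = δ ^ (1 : ℝ) := (Real.rpow_one δ).symm
          _ ≤ _ := Real.rpow_le_rpow_of_exponent_ge hδ hδ1.le hs1
      have h9 := h5 δ (δ ^ ((r : ℝ) / M)) n (A r) hδ hδ1 h8
        (Real.rpow_le_one hδ.le hδ1.le hs0)
        (by
          have h1 : δ ^ ((r : ℝ) / M) ≤ b⁻¹ * ((2 : ℝ) ^ n)⁻¹ := by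
            rw [← div_eq_inv_mul, le_div_iff₀ hb0]
            linarith
          refine h1.trans (mul_le_mul_of_nonneg_right ?_ hn0.le)
          rw [hc₄]
          linarith)
        (g2.trans (mul_le_mul_of_nonneg_right (by rw [hc₄]; linarith) hρ0.le))
        ι c e k g q hcell hA1 hcv p 0 hp
      have h10 : sft (uT k g c e) 0 = uT k g c e := by
        funext ω i
        simp [sft]
      rw [h10] at h9
      refine h9.trans ?_
      have hA0 : (0 : ℝ) < A r := by exact_mod_cast hA1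
      rw [Real.log_mul hC50.ne' hA0.ne']
      have h11 : Real.log (A r) ≤ ε₁ / 4 * (Real.log B + J * Real.log 2) := by
        have h12 := Real.log_le_log hA0 (hA r hr hrM)
        rw [Real.log_rpow hδ] at h12
        have h13 : -Real.log δ ≤ Real.log B + J * Real.log 2 := by
          have h14 := Real.log_le_log (by positivity) hJ2'
          rw [Real.log_inv, Real.log_pow, Real.log_mul (by positivity) hδ.ne'] at h14
          linarith
        calc Real.log (A r) ≤ ε₁ / 4 * (-Real.log δ) := by linarith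
          _ ≤ _ := mul_le_mul_of_nonneg_left h13 (by positivity)
      have h15 : ε₁ / 4 * (J * Real.log 2) ≤ ε₁ / 4 * J := by
        refine mul_le_mul_of_nonneg_left ?_ (by positivity)
        nlinarith
      have h16 : ε₁ / 4 * (Real.log B + J * Real.log 2) =
        ε₁ / 4 * Real.log B + ε₁ / 4 * (J * Real.log 2) := by ring
      linarith
  have h1 := h' d ι (Fin d → ℤ) p (uT k g c e) (Fl (dT k e) (n + l)) hp l n
  have h2 : CH p (Fl (uT k g c e) n) (Fl (dT k e) (n + l)) ≤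
      CH p (Fl (uT k g c e) n) (Fl (dT k e) n) :=
    CH_mono_cond hp.nonneg (fun ω ω' _ _ hh => fl_coarse hh)
  have h3 : (d : ℝ) * (l * Real.log 2) ≤ d + ε₁ / 4 * J := by
    have h4 : (l : ℝ) * Real.log 2 ≤ l := mul_le_of_le_one_right (Nat.cast_nonneg l) hlog2'
    calc (d : ℝ) * (l * Real.log 2) ≤ d * (1 + J / M) :=
        mul_le_mul_of_nonneg_left (h4.trans hl) hd0.le
      _ = d + d / M * J := by ring
      _ ≤ d + ε₁ / 4 * J := by
        have := mul_le_mul_of_nonneg_right hMd hJr.le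
        linarith
  have h4 : Real.log C₅ + ε₁ / 4 * Real.log B + d + cc d ≤ ε₁ / 4 * J := by
    rw [← hG]
    exact hGJ
  have h5 : 0 ≤ ε₁ * J := by positivity
  linarith

end Pool.STE
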